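import Pool.Agent.H33.PTH.Sts

/-!
# The path of windows: the time is alive in the windows of an arithmetic progression
-/

set_option autoImplicit false

namespace Pool.PTH

open Finset Real
open Pool.Agent.H49.Ent Pool.Agent.H32.Dense Pool.STK Pool.KA Pool.KSAT Pool.K2S Pool.PB
open Pool.SLO Pool.SLP Pool.KAF

section one

variable {m J : ℕ} (F : Fam m J)

theorem T1_split {w w' : ℕ} (h1 : w ≤ w') (h2 : w' ≤ J) (ω : F.Ω) :
    ∃ i < 2 ^ (w' - w), F.T1 w' ω = 2 ^ (w' - w) * F.T1 w ω + i := by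
  refine ⟨F.T1 w' ω % 2 ^ (w' - w), Nat.mod_lt _ (by positivity), ?_⟩
  have e : F.T1 w ω = F.T1 w' ω / 2 ^ (w' - w) := by
    unfold Fam.T1
    rw [Nat.div_div_eq_div_mul, ← pow_add]
    congr 2
    omega
  rw [e]
  exact (Nat.div_add_mod _ _).symm

theorem T1_det {p : F.Ω → ℝ} {w w' : ℕ} (h1 : w ≤ w') (h2 : w' ≤ J) :
    Det p (F.T1 w') (F.T1 w) := by
  intro ω ω' _ _ h
  have e : ∀ ω : F.Ω, F.T1 w ω = F.T1 w' ω / 2 ^ (w' - w) := by
    intro ω
    unfold Fam.T1
    rw [Nat.div_div_eq_div_mul, ← pow_add]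
    congr 2
    omega
  rw [e, e, h]

/-- The digits of the time between two windows. -/
theorem T1_ch {p : F.Ω → ℝ} (hp : IsLaw p) {w w' : ℕ} (h1 : w ≤ w') (h2 : w' ≤ J) {β : Type}
    (b : F.Ω → β) : CH p (F.T1 w') b ≤ CH p (F.T1 w) b + ((w' : ℝ) - w) * Real.log 2 := by
  classical
  have h3 := CH_le_add hp.nonneg (F.T1 w') (F.T1 w) b
  have h4 := CH_le_card hp.nonneg hp.sum_one (F.T1 w') (fun ω => (F.T1 w ω, b ω))
    (fun x => (Finset.range (2 ^ (w' - w))).image (fun i => 2 ^ (w' - w) * x.1 + i)) (by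
      intro ω _
      obtain ⟨i, hi, he⟩ := T1_split F h1 h2 ω
      exact Finset.mem_image.2 ⟨i, Finset.mem_range.2 hi, he.symm⟩)
  have h5 : ∀ ω, Real.log (((Finset.range (2 ^ (w' - w))).image
      (fun i => 2 ^ (w' - w) * (F.T1 w ω, b ω).1 + i)).card : ℝ) ≤
      ((w' : ℝ) - w) * Real.log 2 := by
    intro ω
    have e : (w' : ℝ) - w = ((w' - w : ℕ) : ℝ) := by rw [Nat.cast_sub h1]
    rw [Finset.card_image_of_injective _ (fun a b h => by simpa using h), Finset.card_range, e,
      ← Real.log_pow]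
    push_cast
    exact le_rfl
  have h6 := Ex_mono hp.nonneg (g := fun _ => ((w' : ℝ) - w) * Real.log 2) (fun ω _ => h5 ω)
  rw [Ex_const hp.sum_one] at h6
  linarith

end one

/-- **(ALV)** The first digits of the time are alive in all windows of a progression. -/
theorem alv_thm : ALV := by
  classical
  intro m J F p δ hp hT
  have hp0 := hp.nonneg
  have hl2 : 0 < Real.log 2 := Real.log_pos one_lt_two
  obtain ⟨D, hD⟩ : ∃ D : ℕ → ℝ, D = fun g => CH p (F.T1 g) (fun ω => (F.l ω, F.Z ω)) :=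
    ⟨_, rfl⟩
  have hTJ : F.T1 J = F.T := by
    funext ω
    unfold Fam.T1
    rw [Nat.sub_self, pow_zero, Nat.div_one]
  have hDJ : (J : ℝ) * Real.log 2 - δ ≤ D J := by
    rw [hD]
    simp only [hTJ]
    exact hT
  have hD0 : D 0 = 0 := by
    rw [hD]
    refine CH_eq_zero hp0 fun ω ω' _ _ _ => ?_
    unfold Fam.T1
    rw [Nat.sub_zero, Nat.div_eq_of_lt (F.tim ω), Nat.div_eq_of_lt (F.tim ω')]
  have hstep : ∀ w w', w ≤ w' → w' ≤ J → D w' ≤ D w + ((w' : ℝ) - w) * Real.log 2 := by
    intro w w' h1 h2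
    rw [hD]
    exact T1_ch F hp h1 h2 _
  -- conditioned on the window
  have hslam : ∀ (w : ℕ) {S : Type} (Y : F.Ω → S),
      CH p Y (fun ω => (F.T1 w ω, (F.l ω, F.Z ω))) ≤ CH p Y (slam F w) := by
    intro w S Y
    refine CH_mono_cond hp0 ?_
    intro ω ω' _ _ h
    have h1 : F.T1 w ω = F.T1 w ω' := (Prod.ext_iff.1 h).1
    have h2 : F.l ω = F.l ω' := (Prod.ext_iff.1 (Prod.ext_iff.1 h).2).1
    have h3 : F.Z ω = F.Z ω' := (Prod.ext_iff.1 (Prod.ext_iff.1 h).2).2
    unfold slam
    rw [h1, h2, h3]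
  refine ⟨fun w hw => ?_, ?_⟩
  · have h1 := CH_le_add hp0 F.T (F.T1 w) (fun ω => (F.l ω, F.Z ω))
    have h2 := hslam w F.T
    have h3 := hstep 0 w (Nat.zero_le _) hw
    have h4 : CH p (F.T1 w) (fun ω => (F.l ω, F.Z ω)) = D w := by rw [hD]
    rw [hD0] at h3
    push_cast at h3
    linarith
  · intro j₀ x b ε₀ hε₀ hx hb
    have hδ : 0 ≤ δ := by
      have h3 := hstep 0 J (Nat.zero_le _) le_rfl
      rw [hD0] at h3
      push_cast at h3
      linarith
    have hx0 : 0 < x := by
      rcases Nat.eq_zero_or_pos x with h | h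
      · rw [h] at hx
        push_cast at hx
        have : 0 ≤ (j₀ : ℝ) * δ := by positivity
        linarith
      · exact h
    obtain ⟨f, hf⟩ : ∃ f : ℕ → ℝ, f = fun g => Real.log 2 - (D (g + 1) - D g) := ⟨_, rfl⟩
    have hf0 : ∀ g < J, 0 ≤ f g := by
      intro g hg
      have h3 := hstep g (g + 1) (by omega) (by omega)
      rw [hf]
      simp only
      push_cast at h3
      linarith
    have hfs : ∑ g ∈ range J, f g ≤ δ := by
      have h3 : ∑ g ∈ range J, f g = J * Real.log 2 - (D J - D 0) := by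
        rw [hf]
        simp only
        rw [Finset.sum_sub_distrib, Finset.sum_range_sub D J, Finset.sum_const, card_range,
          nsmul_eq_mul]
      rw [h3, hD0]
      linarith
    have hfw : ∀ w, ∑ i ∈ range j₀, f (w + i) = j₀ * Real.log 2 - (D (w + j₀) - D w) := by
      intro w
      rw [hf]
      simp only
      have h3 := Finset.sum_range_sub (fun i => D (w + i)) j₀
      simp only [add_zero] at h3
      rw [Finset.sum_sub_distrib, Finset.sum_const, card_range, nsmul_eq_mul, ← h3]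
      rfl
    -- the entropy of the digits in the window
    have hdig : ∀ w, w + j₀ ≤ J → D (w + j₀) - D w ≤
        CH p (fun ω => ⌊(2 : ℝ) ^ j₀ * F.tw w ω⌋) (slam F w) := by
      intro w hw
      have h1 := CH_le_add hp0 (F.T1 (w + j₀)) (F.T1 w) (fun ω => (F.l ω, F.Z ω))
      have h2 := hslam w (F.T1 (w + j₀))
      have h3 : CH p (F.T1 (w + j₀)) (slam F w) ≤
          CH p (fun ω => ⌊(2 : ℝ) ^ j₀ * F.tw w ω⌋) (slam F w) := by
        refine CH_mono_left hp0 ?_
        intro ω ω' _ _ h
        have g1 : ⌊(2 : ℝ) ^ j₀ * F.tw w ω⌋ = ⌊(2 : ℝ) ^ j₀ * F.tw w ω'⌋ := (Prod.ext_iff.1 h).1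
        have g2 : slam F w ω = slam F w ω' := (Prod.ext_iff.1 h).2
        have g3 := (of_slam g2).1
        have g4 : ∀ ω : F.Ω, ((F.T1 (w + j₀) ω : ℕ) : ℤ) =
            2 ^ j₀ * ((F.T1 w ω : ℕ) : ℤ) + ⌊(2 : ℝ) ^ j₀ * F.tw w ω⌋ := by
          intro ω
          rw [dig_eq F hw]
          have h5 := Nat.div_add_mod (F.T ω) (2 ^ (J - w))
          have h6 : 2 ^ (J - w) = 2 ^ (J - w - j₀) * 2 ^ j₀ := by
            rw [← pow_add]
            congr 1
            omega
          have h7 : F.T1 (w + j₀) ω = 2 ^ j₀ * F.T1 w ω +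
              (F.T ω % 2 ^ (J - w)) / 2 ^ (J - w - j₀) := by
            have h8 : J - (w + j₀) = J - w - j₀ := by omega
            have h9 : F.T1 (w + j₀) ω = (2 ^ (J - w - j₀) * (2 ^ j₀ * F.T1 w ω) +
                F.T ω % 2 ^ (J - w)) / 2 ^ (J - w - j₀) := by
              unfold Fam.T1
              rw [h8]
              congr 1
              rw [← mul_assoc, ← h6]
              exact h5.symm
            rw [h9, Nat.mul_add_div (by positivity)]
          rw [h7]
          push_cast
          ring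
        have g5 := g4 ω
        rw [g1, g3, ← g4 ω'] at g5
        exact_mod_cast g5
      have h4 : CH p (F.T1 w) (fun ω => (F.l ω, F.Z ω)) = D w := by rw [hD]
      have h5 : CH p (F.T1 (w + j₀)) (fun ω => (F.l ω, F.Z ω)) = D (w + j₀) := by rw [hD]
      linarith
    -- the total deficit
    have htot : ∑ r ∈ range (b + 1), ∑ i ∈ range j₀, f (b - r + i) ≤ j₀ * δ := by
      rw [Finset.sum_comm]
      have h3 : ∀ i ∈ range j₀, ∑ r ∈ range (b + 1), f (b - r + i) ≤ δ := by
        intro i hi
        have hi' := Finset.mem_range.1 hi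
        have e1 : ∑ r ∈ range (b + 1), f (b - r + i) = ∑ r ∈ range (b + 1), f (i + r) := by
          rw [← Finset.sum_range_reflect (fun r => f (i + r)) (b + 1)]
          refine Finset.sum_congr rfl fun r hr => ?_
          have := Finset.mem_range.1 hr
          congr 1
          omega
        have e2 : ∑ r ∈ range (b + 1), f (i + r) = ∑ g ∈ Finset.Ico i (i + (b + 1)), f g := by
          rw [Finset.sum_Ico_eq_sum_range]
          congr 2
          omega
        rw [e1, e2]
        refine le_trans (Finset.sum_le_sum_of_subset_of_nonneg ?_ fun g hg _ =>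
          hf0 g (Finset.mem_range.1 hg)) hfs
        intro g hg
        have := Finset.mem_Ico.1 hg
        exact Finset.mem_range.2 (by omega)
      refine (Finset.sum_le_sum h3).trans (le_of_eq ?_)
      rw [Finset.sum_const, card_range, nsmul_eq_mul]
    by_contra hcon
    push Not at hcon
    have hch : ∀ s, ∃ n : ℕ, s < x → s + n * x ≤ b ∧
        CH p (fun ω => ⌊(2 : ℝ) ^ j₀ * F.tw (b - (s + n * x)) ω⌋)
          (slam F (b - (s + n * x))) < j₀ * Real.log 2 - ε₀ := by
      intro s
      by_cases hs : s < x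
      · obtain ⟨n, h1, h2⟩ := hcon s hs
        exact ⟨n, fun _ => ⟨h1, h2⟩⟩
      · exact ⟨0, fun h => absurd h hs⟩
    choose n hn using hch
    have h1 : ∀ s ∈ range x, ε₀ ≤ ∑ i ∈ range j₀, f (b - (s + n s * x) + i) := by
      intro s hs
      obtain ⟨g1, g2⟩ := hn s (Finset.mem_range.1 hs)
      have g3 := hdig (b - (s + n s * x)) (by omega)
      rw [hfw]
      linarith
    have h2 : (x : ℝ) * ε₀ ≤ ∑ s ∈ range x, ∑ i ∈ range j₀, f (b - (s + n s * x) + i) := by
      have := Finset.sum_le_sum h1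
      rw [Finset.sum_const, card_range, nsmul_eq_mul] at this
      exact this
    have hinj : Set.InjOn (fun s => s + n s * x) (range x : Set ℕ) := by
      intro s hs s' hs' he
      have hs1 := Finset.mem_range.1 (Finset.mem_coe.1 hs)
      have hs2 := Finset.mem_range.1 (Finset.mem_coe.1 hs')
      have h3 : (s + n s * x) % x = (s' + n s' * x) % x := congrArg (· % x) he
      rw [Nat.add_mul_mod_self_right, Nat.add_mul_mod_self_right, Nat.mod_eq_of_lt hs1,
        Nat.mod_eq_of_lt hs2] at h3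
      exact h3
    have h3 : ∑ s ∈ range x, ∑ i ∈ range j₀, f (b - (s + n s * x) + i) =
        ∑ r ∈ (range x).image (fun s => s + n s * x), ∑ i ∈ range j₀, f (b - r + i) := by
      rw [Finset.sum_image hinj]
    have h4 : ∑ r ∈ (range x).image (fun s => s + n s * x), ∑ i ∈ range j₀, f (b - r + i) ≤
        ∑ r ∈ range (b + 1), ∑ i ∈ range j₀, f (b - r + i) := by
      refine Finset.sum_le_sum_of_subset_of_nonneg ?_ ?_
      · intro r hr
        obtain ⟨s, hs, rfl⟩ := Finset.mem_image.1 hr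
        have := (hn s (Finset.mem_range.1 hs)).1
        exact Finset.mem_range.2 (by omega)
      · intro r hr _
        have hr' := Finset.mem_range.1 hr
        refine Finset.sum_nonneg fun i hi => ?_
        have hi' := Finset.mem_range.1 hi
        exact hf0 _ (by omega)
    linarith

end Pool.PTH
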