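import Pool.Agent.H81.SLP.Ctx3

/-!
# The coefficients of the section of a polynomial at a fixed time
-/

set_option autoImplicit false

namespace Pool.PTH

open Finset Real MvPolynomial
open Pool.SLO

variable {k : ℕ}

/-- The exponent `n` at the coordinate `i₁` and the exponents `al` at the other ones. -/
noncomputable def ins (i₁ : Fin (k + 1)) (n : ℕ) (al : Fin k → ℕ) : Fin (k + 1) →₀ ℕ :=
  Finsupp.equivFunOnFinite.symm (Fin.insertNth (α := fun _ => ℕ) i₁ n al)

theorem ins_same (i₁ : Fin (k + 1)) (n : ℕ) (al : Fin k → ℕ) : ins i₁ n al i₁ = n :=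
  Fin.insertNth_apply_same (α := fun _ => ℕ) _ _ _

theorem ins_succ (i₁ : Fin (k + 1)) (n : ℕ) (al : Fin k → ℕ) (j : Fin k) :
    ins i₁ n al (i₁.succAbove j) = al j :=
  Fin.insertNth_apply_succAbove (α := fun _ => ℕ) _ _ _ _

/-- The exponents of the other coordinates. -/
noncomputable def rst (i₁ : Fin (k + 1)) (s : Fin (k + 1) →₀ ℕ) : Fin k → ℕ :=
  fun j => s (i₁.succAbove j)

theorem eq_ins_iff (i₁ : Fin (k + 1)) (s : Fin (k + 1) →₀ ℕ) (n : ℕ) (al : Fin k → ℕ) :
    s = ins i₁ n al ↔ s i₁ = n ∧ rst i₁ s = al := by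
  constructor
  · rintro rfl
    exact ⟨ins_same i₁ n al, funext fun j => ins_succ i₁ n al j⟩
  · rintro ⟨h1, h2⟩
    ext j
    refine Fin.succAboveCases (α := fun j => s j = ins i₁ n al j) i₁ ?_ (fun j => ?_) j
    · rw [ins_same, h1]
    · rw [ins_succ, ← h2]
      rfl

theorem sect_monomial (i₁ : Fin (k + 1)) (τ : ℝ) (s : Fin (k + 1) →₀ ℕ) (c : ℝ) :
    sect i₁ τ (monomial s c) =
      monomial (Finsupp.equivFunOnFinite.symm (rst i₁ s)) (c * τ ^ s i₁) := by
  classical
  unfold sect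
  rw [bind₁_monomial]
  have h1 : ∏ i ∈ s.support, (Fin.insertNth (α := fun _ => MvPolynomial (Fin k) ℝ) i₁ (C τ)
      (fun j => X j)) i ^ s i = ∏ i, (Fin.insertNth (α := fun _ => MvPolynomial (Fin k) ℝ) i₁
      (C τ) (fun j => X j)) i ^ s i := by
    refine Finset.prod_subset (Finset.subset_univ _) fun i _ hi => ?_
    rw [Finsupp.notMem_support_iff.1 hi, pow_zero]
  rw [h1, Fin.prod_univ_succAbove _ i₁, Fin.insertNth_apply_same, monomial_eq,
    Finsupp.prod_fintype _ _ (fun i => pow_zero _), ← C_pow, ← mul_assoc, ← C_mul]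
  congr 1
  refine Finset.prod_congr rfl fun j _ => ?_
  rw [Fin.insertNth_apply_succAbove]
  rfl

/-- The coefficients of the section are polynomials in the time. -/
theorem coeff_sect {K : ℕ} {G : MvPolynomial (Fin (k + 1)) ℝ} (hG : G.totalDegree ≤ K)
    (i₁ : Fin (k + 1)) (τ : ℝ) (al : Fin k → ℕ) :
    coeff (Finsupp.equivFunOnFinite.symm al) (sect i₁ τ G) =
      ∑ n : Fin (K + 1), coeff (ins i₁ n al) G * τ ^ (n : ℕ) := by
  classical
  have h1 : sect i₁ τ G = ∑ s ∈ G.support,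
      monomial (Finsupp.equivFunOnFinite.symm (rst i₁ s)) (coeff s G * τ ^ s i₁) := by
    conv_lhs => rw [as_sum G]
    have h2 : ∀ P : Finset (Fin (k + 1) →₀ ℕ), sect i₁ τ (∑ s ∈ P, monomial s (coeff s G)) =
        ∑ s ∈ P, sect i₁ τ (monomial s (coeff s G)) := by
      intro P
      unfold sect
      rw [map_sum]
    rw [h2]
    exact Finset.sum_congr rfl fun s _ => sect_monomial i₁ τ s _
  rw [h1, coeff_sum]
  have h3 : ∀ n : Fin (K + 1), coeff (ins i₁ n al) G * τ ^ (n : ℕ) =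
      ∑ s ∈ G.support, if s = ins i₁ n al then coeff s G * τ ^ (n : ℕ) else 0 := by
    intro n
    rw [Finset.sum_ite_eq' G.support (ins i₁ n al) (fun s => coeff s G * τ ^ (n : ℕ))]
    split_ifs with h
    · rfl
    · rw [notMem_support_iff.1 h, zero_mul]
  simp only [h3]
  rw [Finset.sum_comm]
  refine Finset.sum_congr rfl fun s hs => ?_
  rw [coeff_monomial]
  have h4 : s i₁ < K + 1 := by
    have h5 : s.sum (fun _ e => e) ≤ K := (le_totalDegree hs).trans hG
    rw [Finsupp.sum_fintype _ _ fun _ => rfl] at h5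
    have h6 := Finset.single_le_sum (f := fun i => s i) (fun _ _ => Nat.zero_le _)
      (Finset.mem_univ i₁)
    have h7 : s i₁ ≤ ∑ i, s i := h6
    omega
  by_cases h : rst i₁ s = al
  · rw [if_pos (by rw [h])]
    rw [Finset.sum_eq_single (⟨s i₁, h4⟩ : Fin (K + 1))]
    · rw [if_pos ((eq_ins_iff i₁ s _ al).2 ⟨rfl, h⟩)]
    · intro n _ hn
      refine if_neg fun h5 => hn ?_
      exact Fin.ext ((eq_ins_iff i₁ s _ al).1 h5).1.symm
    · intro h5
      exact absurd (Finset.mem_univ _) h5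
  · rw [if_neg (fun h5 => h (Finsupp.equivFunOnFinite.symm.injective h5))]
    symm
    refine Finset.sum_eq_zero fun n _ => if_neg fun h5 => h ?_
    exact ((eq_ins_iff i₁ s _ al).1 h5).2

theorem coeff_rdp (m K P : ℕ) (G : MvPolynomial (Fin m) ℝ) (s : Fin m →₀ ℕ) :
    coeff s (rdp K P G) = if s ∈ mons m K then (hz P G s : ℝ) / 2 ^ P else 0 := by
  classical
  unfold rdp rdz
  rw [coeff_sum]
  simp only [coeff_monomial]
  rw [Finset.sum_ite_eq' (mons m K) s (fun s => (hz P G s : ℝ) / 2 ^ P)]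

/-- The coefficients of the remainder. -/
theorem coeff_rem {m K P : ℕ} {G : MvPolynomial (Fin m) ℝ} (hG : G.totalDegree ≤ K)
    (s : Fin m →₀ ℕ) : 0 ≤ coeff s (G - rdp K P G) ∧ coeff s (G - rdp K P G) ≤ 1 / 2 ^ P := by
  have hP : (0 : ℝ) < 2 ^ P := by positivity
  rw [coeff_sub, coeff_rdp]
  split_ifs with h
  · have h1 := Int.floor_le ((2 : ℝ) ^ P * coeff s G)
    have h2 := Int.lt_floor_add_one ((2 : ℝ) ^ P * coeff s G)
    have e : coeff s G - (hz P G s : ℝ) / 2 ^ P =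
        (2 ^ P * coeff s G - (hz P G s : ℝ)) / 2 ^ P := by
      field_simp
    rw [e]
    unfold hz
    exact ⟨div_nonneg (by linarith) hP.le, div_le_div_of_nonneg_right (by linarith) hP.le⟩
  · have h1 : coeff s G = 0 := by
      by_contra hcon
      exact h (mem_mons.2 ((le_totalDegree (mem_support_iff.2 hcon)).trans hG))
    rw [h1, sub_zero]
    exact ⟨le_rfl, by positivity⟩

/-- The floor of the remainder. -/
theorem floor_rem {m K P X : ℕ} {G : MvPolynomial (Fin m) ℝ} {s : Fin m →₀ ℕ}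
    (hs : s ∈ mons m K) : ⌊(2 : ℝ) ^ (P + X) * coeff s (G - rdp K P G)⌋ =
      hz (P + X) G s - 2 ^ X * hz P G s := by
  rw [coeff_sub, coeff_rdp, if_pos hs]
  have h1 : (2 : ℝ) ^ (P + X) * (coeff s G - (hz P G s : ℝ) / 2 ^ P) =
      2 ^ (P + X) * coeff s G - ((2 ^ X * hz P G s : ℤ) : ℝ) := by
    push_cast
    rw [pow_add]
    field_simp
  rw [h1, Int.floor_sub_intCast]
  rfl

end Pool.PTH
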