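import Pool.Agent.H33.PTH.Sts
import Pool.Agent.H55.SLP.FST
import Pool.Agent.H7.SLP.SHB
import Pool.Agent.H41.PTH.Cof

/-!
# The path of windows: the step for the shape
-/

set_option autoImplicit false

namespace Pool.PTH

open Finset Real MvPolynomial
open Pool.Agent.H49.Ent Pool.Agent.H32.Dense Pool.STK Pool.KA Pool.KSAT Pool.K2S Pool.PB
open Pool.SLO Pool.SLP Pool.KAF

section one

variable {k J : ℕ} {F : Fam (k + 1) J} {i₁ : Fin (k + 1)} {a w q K e X : ℕ} {H : Lb F}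
  {G : F.Ω → MvPolynomial (Fin (k + 1)) ℝ} {C0 : ℝ}

/-- The digits of the time after the window. -/
def dg (J w X : ℕ) {Z : Type} (θ : ℕ × Z) : ℕ := (θ.1 % 2 ^ (J - w)) / 2 ^ (J - w - X)

theorem dg_lt {Z : Type} (h : w + X ≤ J) (θ : ℕ × Z) : dg J w X θ < 2 ^ X := by
  unfold dg
  rw [Nat.div_lt_iff_lt_mul (by positivity), ← pow_add]
  have e : X + (J - w - X) = J - w := by omega
  rw [e]
  exact Nat.mod_lt _ (by positivity)

theorem dg_near (h : w + X ≤ J) (ω : F.Ω) :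
    |F.tw w ω - (dg J w X (F.W ω) : ℝ) / 2 ^ X| ≤ 1 / 2 ^ X := by
  have h1 := dig_eq F h ω
  have h2 : (((dg J w X (F.W ω) : ℕ) : ℤ) : ℝ) = (⌊(2 : ℝ) ^ X * F.tw w ω⌋ : ℝ) := by
    rw [h1]
    rfl
  have h3 := Int.floor_le ((2 : ℝ) ^ X * F.tw w ω)
  have h4 := Int.lt_floor_add_one ((2 : ℝ) ^ X * F.tw w ω)
  rw [← h2] at h3 h4
  push_cast at h3 h4
  have hp : (0 : ℝ) < 2 ^ X := by positivity
  have e : F.tw w ω - (dg J w X (F.W ω) : ℝ) / 2 ^ X =
      (2 ^ X * F.tw w ω - (dg J w X (F.W ω) : ℝ)) / 2 ^ X := by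
    field_simp
  rw [e, abs_div, abs_of_pos hp]
  refine div_le_div_of_nonneg_right ?_ hp.le
  rw [abs_le]
  constructor <;> linarith

/-- The coefficients of the label over the coarse label. -/
noncomputable def hc (F : Fam (k + 1) J) (i₁ : Fin (k + 1)) (a w q K e : ℕ) (H : Lb F) (ω : F.Ω)
    (al : Pool.M5.Mon k K) (n : Fin (K + 1)) : ℝ :=
  coeff (ins i₁ n (al : Fin k → ℕ)) (plb F i₁ a w q ω (H (slam F w ω)) -
    rdp K e (plb F i₁ a w q ω (H (slam F w ω))))

theorem hc_of_slam {ω ω' : F.Ω} (h : slam F w ω = slam F w ω') :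
    hc F i₁ a w q K e H ω = hc F i₁ a w q K e H ω' := by
  unfold hc
  rw [plb_of_slam' h]

theorem hc_le (hH : ∀ s, (H s).totalDegree ≤ K) (ω : F.Ω) (al : Pool.M5.Mon k K)
    (n : Fin (K + 1)) : |hc F i₁ a w q K e H ω al n| ≤ 1 / 2 ^ e := by
  have h := coeff_rem (P := e) (totalDegree_plb (i₁ := i₁) (a := a) (q := q) (w := w) ω
    (hH (slam F w ω))) (ins i₁ n (al : Fin k → ℕ))
  unfold hc
  rw [abs_of_nonneg h.1]
  exact h.2

/-- The digits of the shape and the coefficients of the label. -/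
theorem shd_near {C₂ : ℝ}
    (hcube : ∀ (P : MvPolynomial (Fin k) ℝ) (M : ℝ), P.totalDegree ≤ K →
      (∀ b : Fin k → ℝ, (∀ i, 0 ≤ b i ∧ b i ≤ 1) → |eval b P| ≤ M) → ∀ s, |coeff s P| ≤ C₂ * M)
    (hwX : w + X ≤ J) (hH : ∀ s, (H s).totalDegree ≤ K) {ω : F.Ω} (hG : (G ω).totalDegree ≤ K)
    (hn : NearB F i₁ a w q K (e + X) (e + X) C0 G H ω) (al : Pool.M5.Mon k K) :
    |(shd F i₁ a w q K e e X H G ω al : ℝ) - 2 ^ (e + X) *
      ∑ n, hc F i₁ a w q K e H ω al n * ((dg J w X (F.W ω) : ℝ) / 2 ^ X) ^ (n : ℕ)| ≤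
      1 + C₂ * (|C0| + (mons (k + 1) K).card) + (K + 1) * K := by
  obtain ⟨t0, t1⟩ := tw_mem (F := F) (w := w) (by omega) ω
  have hpos : (0 : ℝ) < 2 ^ (e + X) := by positivity
  set P := plb F i₁ a w q ω (H (slam F w ω)) with hP
  set Q := plb F i₁ a w q ω (G ω) with hQ
  set τ := F.tw w ω with hτ
  have hPd : P.totalDegree ≤ K := totalDegree_plb ω (hH _)
  have hQd : Q.totalDegree ≤ K := totalDegree_plb ω hG
  -- the floor
  have f1 : |(shd F i₁ a w q K e e X H G ω al : ℝ) - 2 ^ (e + X) *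
      coeff (Finsupp.equivFunOnFinite.symm (al : Fin k → ℕ)) (sect i₁ τ (Q - rdp K e P))| ≤ 1 := by
    have e1 : (2 : ℝ) ^ X * shw F i₁ a w q K e e H G ω al = 2 ^ (e + X) *
        coeff (Finsupp.equivFunOnFinite.symm (al : Fin k → ℕ)) (sect i₁ τ (Q - rdp K e P)) := by
      unfold shw shc
      rw [← mul_assoc, ← pow_add, add_comm X e]
      rfl
    unfold shd
    rw [← e1]
    have h3 := Int.floor_le ((2 : ℝ) ^ X * shw F i₁ a w q K e e H G ω al)
    have h4 := Int.lt_floor_add_one ((2 : ℝ) ^ X * shw F i₁ a w q K e e H G ω al)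
    rw [abs_le]
    constructor <;> linarith
  -- the own sheet and the label
  have f2 : |2 ^ (e + X) *
      coeff (Finsupp.equivFunOnFinite.symm (al : Fin k → ℕ)) (sect i₁ τ (Q - P))| ≤
      C₂ * (|C0| + (mons (k + 1) K).card) := by
    have h1 := hcube (sect i₁ τ (Q - P)) ((|C0| + (mons (k + 1) K).card) / 2 ^ (e + X))
      ((totalDegree_sect_le _ _ _).trans ((totalDegree_sub _ _).trans (max_le hQd hPd))) (by
      intro z hz
      rw [eval_sect, map_sub]
      obtain ⟨b, hb⟩ : ∃ b : Fin (k + 1) → ℝ,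
        b = Fin.insertNth (α := fun _ => ℝ) i₁ τ z := ⟨_, rfl⟩
      rw [← hb]
      have hb1 : b i₁ = τ := by
        rw [hb]
        exact Fin.insertNth_apply_same _ _ _
      have hb2 : ∀ j, 0 ≤ b j ∧ b j ≤ 1 := by
        intro j
        rw [hb]
        refine Fin.succAboveCases (α := fun j => 0 ≤ Fin.insertNth (α := fun _ => ℝ) i₁ τ z j ∧
          Fin.insertNth (α := fun _ => ℝ) i₁ τ z j ≤ 1) i₁ ?_ (fun j => ?_) j
        · rw [Fin.insertNth_apply_same]
          exact ⟨t0, t1.le⟩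
        · rw [Fin.insertNth_apply_succAbove]
          exact hz j
      have g1 := hn b hb2 hb1
      have g2 := abs_rdp_le (P := e + X) hPd (b := b) (fun i => by
        rw [abs_of_nonneg (hb2 i).1]
        exact (hb2 i).2)
      have g3 : C0 / 2 ^ (e + X) ≤ |C0| / 2 ^ (e + X) :=
        div_le_div_of_nonneg_right (le_abs_self _) hpos.le
      have e1 : Rc F i₁ a w q K (e + X) H ω = rdp K (e + X) P := rfl
      rw [e1] at g1
      rw [add_div]
      rw [abs_le] at g1 g2 ⊢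
      constructor <;> linarith only [g1, g2, g3, g1.1, g1.2, g2.1, g2.2])
      (Finsupp.equivFunOnFinite.symm (al : Fin k → ℕ))
    rw [abs_mul, abs_of_pos hpos]
    calc (2 : ℝ) ^ (e + X) * _ ≤ 2 ^ (e + X) *
        (C₂ * ((|C0| + (mons (k + 1) K).card) / 2 ^ (e + X))) := mul_le_mul_of_nonneg_left h1 hpos.le
      _ = _ := by field_simp
  -- the time
  have f3 : |2 ^ (e + X) *
      coeff (Finsupp.equivFunOnFinite.symm (al : Fin k → ℕ)) (sect i₁ τ (P - rdp K e P)) -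
      2 ^ (e + X) * ∑ n, hc F i₁ a w q K e H ω al n *
        ((dg J w X (F.W ω) : ℝ) / 2 ^ X) ^ (n : ℕ)| ≤ (K + 1) * K := by
    have hrd : (rdp K e P).totalDegree ≤ K := totalDegree_rdz _ _ _
    rw [coeff_sect ((totalDegree_sub _ _).trans (max_le hPd hrd)), ← mul_sub, abs_mul,
      abs_of_pos hpos, ← Finset.sum_sub_distrib]
    set θ : ℝ := (dg J w X (F.W ω) : ℝ) / 2 ^ X with hθ
    have hθ0 : 0 ≤ θ := by positivity
    have hθ1 : θ ≤ 1 := by
      rw [hθ, div_le_one (by positivity)]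
      exact_mod_cast (dg_lt hwX (F.W ω)).le
    have h1 : ∀ n : Fin (K + 1), |coeff (ins i₁ n (al : Fin k → ℕ)) (P - rdp K e P) * τ ^ (n : ℕ) -
        hc F i₁ a w q K e H ω al n * θ ^ (n : ℕ)| ≤ 1 / 2 ^ e * (K * (1 / 2 ^ X)) := by
      intro n
      have e1 : coeff (ins i₁ n (al : Fin k → ℕ)) (P - rdp K e P) * τ ^ (n : ℕ) -
        hc F i₁ a w q K e H ω al n * θ ^ (n : ℕ) = hc F i₁ a w q K e H ω al n *
          (τ ^ (n : ℕ) - θ ^ (n : ℕ)) := by
        unfold hc
        ring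
      rw [e1, abs_mul]
      refine mul_le_mul (hc_le hH ω al n) ?_ (abs_nonneg _) (by positivity)
      have g1 := abs_pow_sub_pow_le τ θ (n : ℕ)
      have g2 : max |τ| |θ| ^ ((n : ℕ) - 1) ≤ 1 := by
        refine pow_le_one₀ (le_max_of_le_left (abs_nonneg _)) (max_le ?_ ?_)
        · rw [abs_of_nonneg t0]
          exact t1.le
        · rw [abs_of_nonneg hθ0]
          exact hθ1
      have g3 := dg_near hwX ω
      have g4 : ((n : ℕ) : ℝ) ≤ K := by
        exact_mod_cast Nat.lt_succ_iff.1 n.2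
      calc |τ ^ (n : ℕ) - θ ^ (n : ℕ)| ≤ |τ - θ| * (n : ℕ) * max |τ| |θ| ^ ((n : ℕ) - 1) := g1
        _ ≤ |τ - θ| * (n : ℕ) * 1 := mul_le_mul_of_nonneg_left g2 (by positivity)
        _ = (n : ℕ) * |τ - θ| := by ring
        _ ≤ K * (1 / 2 ^ X) := mul_le_mul g4 g3 (abs_nonneg _) (by positivity)
    have h2 := (Finset.abs_sum_le_sum_abs _ _).trans (Finset.sum_le_sum fun n (_ : n ∈ univ) => h1 n)
    rw [Finset.sum_const, Finset.card_univ, Fintype.card_fin, nsmul_eq_mul] at h2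
    calc (2 : ℝ) ^ (e + X) * _ ≤ 2 ^ (e + X) *
        (((K + 1 : ℕ) : ℝ) * (1 / 2 ^ e * (K * (1 / 2 ^ X)))) := mul_le_mul_of_nonneg_left h2 hpos.le
      _ = (K + 1) * K := by
        rw [pow_add]
        push_cast
        field_simp
  have e1 : sect i₁ τ (Q - rdp K e P) = sect i₁ τ (Q - P) + sect i₁ τ (P - rdp K e P) := by
    unfold sect
    rw [← map_add]
    congr 1
    ring
  rw [e1, coeff_add, mul_add] at f1
  rw [abs_le] at f1 f2 f3 ⊢
  constructor <;> linarith only [f1, f2, f3, f1.1, f1.2, f2.1, f2.2, f3.1, f3.2]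

end one

/-- **(DF)** The step for the shape. -/
theorem df_thm (k K : ℕ) (C0 : ℝ) : DF k K C0 := by
  classical
  obtain ⟨C₁, hC₁, hsh⟩ := shd_of_box k K (|C0| + 2 * (mons (k + 1) K).card) (by positivity)
  obtain ⟨C₂, hC₂, hcube⟩ := Pool.SLO.coef_cube k K
  obtain ⟨C₃, hC₃⟩ : ∃ C₃ : ℝ, C₃ = 1 + C₂ * (|C0| + (mons (k + 1) K).card) + (K + 1) * K :=
    ⟨_, rfl⟩
  have hC₃0 : 0 ≤ C₃ := by rw [hC₃]; positivity
  obtain ⟨c0, hc0⟩ : ∃ c0 : ℝ, c0 = Real.log (2 * ((K + 1) * 2 ^ K * (2 * C₃) + 1) + 1) :=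
    ⟨_, rfl⟩
  have hc00 : 0 ≤ c0 := by
    rw [hc0]
    refine Real.log_nonneg ?_
    have : (0 : ℝ) ≤ (K + 1) * 2 ^ K * (2 * C₃) := by positivity
    linarith only [this]
  obtain ⟨N, hN⟩ : ∃ N : ℝ, N = (Fintype.card (Pool.M5.Mon k K) : ℝ) * (K + 1) := ⟨_, rfl⟩
  have hN0 : 0 ≤ N := by rw [hN]; positivity
  have hl2 : 0 < Real.log 2 := Real.log_pos one_lt_two
  have hl6 : 0 ≤ Real.log 6 := Real.log_nonneg (by norm_num)
  refine ⟨(K + 1) * (C₁ + 1) + N * (c0 + (K + 4) * ((K + 1) ^ 2 *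
    (2 * ((K + 1) + Real.log 6) + Real.log 2))), by positivity, ?_⟩
  intro J F i₁ p a w q e X H G δ hp hX hwX hq hH hG hn hδ hT
  have hp0 := hp.nonneg
  have hwJ : w ≤ J := by omega
  set L := slam F w with hL
  set c := ctx F i₁ a w q e H with hcd
  have hdet : Det p L c := fun ω ω' _ _ h => ctx_of_slam h
  set h := fac p L (hc F i₁ a w q K e H) 0 with hh
  have hh1 : ∀ ω, 0 < p ω → h (L ω) = hc F i₁ a w q K e H ω := fun ω hω =>
    fac_eq (fun ω ω' _ _ h => hc_of_slam h) hω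
  -- the digits of the time
  have hTs : CH p F.T L ≤ CH p (fun ω => dg J w X (F.W ω)) L +
      ((J : ℝ) - w - X) * Real.log 2 := by
    have h1 := CH_le_add hp0 F.T (fun ω => dg J w X (F.W ω)) L
    have h2 := T_ch hp hwX (fun ω => (dg J w X (F.W ω), L ω))
      (fun ω ω' _ _ h => (of_slam (Prod.ext_iff.1 h).2).1)
      (fun ω ω' _ _ h => by
        have h3 : dg J w X (F.W ω) = dg J w X (F.W ω') := (Prod.ext_iff.1 h).1
        show ⌊(2 : ℝ) ^ X * F.tw w ω⌋ = ⌊(2 : ℝ) ^ X * F.tw w ω'⌋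
        rw [dig_eq F hwX, dig_eq F hwX]
        exact congrArg _ h3)
    linarith only [h1, h2]
  have he : X * Real.log 2 - δ ≤ CH p (fun ω => dg J w X (F.W ω)) L := by
    have : ((J : ℝ) - w) * Real.log 2 - ((J : ℝ) - w - X) * Real.log 2 = X * Real.log 2 := by
      ring
    linarith only [hT, hTs]
  -- the F-step
  have hXr : (1 : ℝ) ≤ X := by exact_mod_cast hX
  have key := Pool.SLO.FST.fst_en (p := p) hp L c hdet F.W (dg J w X) (m := X) (e := δ)
    (fun ω => dg_lt hwX _) he (shd F i₁ a w q K e e X H G) K h (R := 2 ^ (e + X))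
    (B := 1 / 2 ^ e) (C₁ := C₃) (A := 4) (by positivity) hC₃0
    (fun ω hω al n => by
      rw [hh1 ω hω]
      exact hc_le hH ω al n)
    (fun ω hω al => by
      rw [hh1 ω hω, hC₃]
      exact shd_near hcube hwX hH (hG ω hω) (hn ω hω) al)
    (by norm_num) (by
      have e1 : (2 : ℝ) ^ (e + X) * (1 / 2 ^ e) = 2 ^ X := by
        rw [pow_add]
        field_simp
      rw [e1]
      have e2 : (1 : ℝ) ≤ 2 ^ X := one_le_pow₀ (by norm_num)
      have e3 : 2 * (2 * (2 : ℝ) ^ X + 1) + 1 ≤ 2 ^ (3 + X) := by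
        rw [pow_add]
        linarith only [e2]
      refine (Real.log_le_log (by positivity) e3).trans ?_
      rw [Real.log_pow]
      push_cast
      nlinarith only [hl2, hXr])
  -- the shape from the remainders
  have s1 : CH p (fsh F i₁ a w q K H (e + X)) c ≤
      CH p (fun ω al n => ⌊(2 : ℝ) ^ (e + X) * h (L ω) al n⌋) c := by
    refine CH_mono_left hp0 ?_
    intro ω ω' hω hω' hex
    have g1 := (Prod.ext_iff.1 hex).1
    have g2 : ctx F i₁ a w q e H ω = ctx F i₁ a w q e H ω' := (Prod.ext_iff.1 hex).2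
    have g3 := (ctx_ext g2).2.2.2.2.2.1
    funext s
    unfold fsh
    by_cases hs : s ∈ mons (k + 1) K ∧ ¬ Pur i₁ s
    · rw [if_pos hs, if_pos hs]
      have hal : rst i₁ s ∈ Pool.M5.Mon k K := by
        have h1 := mem_mons.1 hs.1
        rw [Finsupp.sum_fintype _ _ fun _ => rfl, Fin.sum_univ_succAbove _ i₁] at h1
        unfold Pool.M5.Mon
        rw [Finset.mem_filter, Fintype.mem_piFinset]
        refine ⟨fun j => ?_, ?_, ?_⟩
        · rw [Finset.mem_range]
          have h2 := Finset.single_le_sum (f := fun j => s (i₁.succAbove j))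
            (fun _ _ => Nat.zero_le _) (Finset.mem_univ j)
          have h3 : rst i₁ s j ≤ ∑ j, s (i₁.succAbove j) := h2
          omega
        · by_contra hcon
          refine hs.2 fun j hj => ?_
          have h2 : ∑ j, rst i₁ s j = 0 := by omega
          rw [Finset.sum_eq_zero_iff] at h2
          obtain ⟨j', rfl⟩ := Fin.exists_succAbove_eq hj
          exact h2 j' (Finset.mem_univ _)
        · have h3 : ∑ j, rst i₁ s j = ∑ j, s (i₁.succAbove j) := rfl
          omega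
      have hn1 : s i₁ < K + 1 := by
        have h1 := mem_mons.1 hs.1
        rw [Finsupp.sum_fintype _ _ fun _ => rfl, Fin.sum_univ_succAbove _ i₁] at h1
        omega
      have g4 := congrFun (congrFun g1 ⟨rst i₁ s, hal⟩) ⟨s i₁, hn1⟩
      simp only at g4
      rw [hh1 ω hω, hh1 ω' hω'] at g4
      have hins : ins i₁ (s i₁) (rst i₁ s) = s := ((eq_ins_iff i₁ s _ _).2 ⟨rfl, rfl⟩).symm
      unfold hc at g4
      simp only at g4
      rw [hins, floor_rem hs.1, floor_rem hs.1] at g4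
      have g5 := congrFun g3 s
      rw [g5] at g4
      linarith only [g4]
    · rw [if_neg hs, if_neg hs]
  -- the information of the time
  have s2 : Pool.KVA.MI p F.W L c ≤ δ := by
    have g0 : CH p F.W (fun ω => (L ω, c ω)) = CH p F.W L := by
      refine CH_congr hp0 ?_ ?_ ?_ ?_
      · intro ω ω' _ _ h
        exact (Prod.ext_iff.1 h).1
      · intro ω ω' _ _ h
        exact (Prod.ext_iff.1 h).1
      · intro ω ω' _ _ h
        exact (Prod.ext_iff.1 h).1
      · intro ω ω' _ _ h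
        have h' : slam F w ω = slam F w ω' := h
        exact Prod.ext h' (ctx_of_slam h')
    have g1 : Pool.KVA.MI p F.W L c = CH p F.W c - CH p F.W L := by
      unfold Pool.KVA.MI
      rw [CH_chain hp0 F.W L c, g0]
      ring
    have g2 : CH p F.W c ≤ ((J : ℝ) - w) * Real.log 2 := by
      have h1 := CH_le_add hp0 F.W F.T c
      have h2 : CH p F.W (fun ω => (F.T ω, c ω)) = 0 := CH_eq_zero hp0 (fun ω ω' _ _ h => by
        have h3 : F.T ω = F.T ω' := (Prod.ext_iff.1 h).1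
        have h4 : ctx F i₁ a w q e H ω = ctx F i₁ a w q e H ω' := (Prod.ext_iff.1 h).2
        exact Prod.ext h3 (ctx_ext h4).2.2.2.2.2.2.2)
      have h5 := T_ch hp (w := w) (X := 0) (by omega) c (fun ω ω' _ _ h => (ctx_ext h).1)
        (fun ω ω' _ _ _ => by
          obtain ⟨a0, a1⟩ := tw_mem hwJ ω
          obtain ⟨b0, b1⟩ := tw_mem hwJ ω'
          have e1 : ⌊(2 : ℝ) ^ 0 * F.tw w ω⌋ = 0 := by
            rw [pow_zero, one_mul, Int.floor_eq_zero_iff]
            exact ⟨a0, a1⟩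
          have e2 : ⌊(2 : ℝ) ^ 0 * F.tw w ω'⌋ = 0 := by
            rw [pow_zero, one_mul, Int.floor_eq_zero_iff]
            exact ⟨b0, b1⟩
          exact e1.trans e2.symm)
      push_cast at h5
      linarith only [h1, h2, h5]
    have g3 : CH p F.T L ≤ CH p F.W L := CH_mono_left hp0 (fun ω ω' _ _ h =>
      (Prod.ext_iff.1 (Prod.ext_iff.1 h).1).1)
    rw [g1]
    linarith only [hT, g2, g3]
  -- the digits of the shape
  have hnc : ∀ ω, 0 < p ω →
      NearB F i₁ a w q K e e (|C0| + 2 * (mons (k + 1) K).card) G H ω := by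
    intro ω hω
    refine near_coarse (abs_nonneg _) hH (X := X) ?_
    intro b hb hbt
    exact (hn ω hω b hb hbt).trans (div_le_div_of_nonneg_right (le_abs_self _) (by positivity))
  have s3 := hsh J F i₁ p a w q e e X G H hp hwJ hq hG hnc
  -- the sum
  refine s1.trans (key.trans ?_)
  rw [← hc0, ← hN]
  have hK0 : (0 : ℝ) ≤ K := Nat.cast_nonneg K
  have t1 : ((K : ℝ) + 1) * (CH p (shd F i₁ a w q K e e X H G) (fun ω => (c ω, F.W ω)) +
      Pool.KVA.MI p F.W L c) ≤ (K + 1) * (CH p (Sc F i₁ a e K G X) (bxs F i₁ a e K G 0)) +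
      (K + 1) * (C₁ + 1) * (1 + δ) := by
    have t2 : ((K : ℝ) + 1) * (CH p (shd F i₁ a w q K e e X H G) (fun ω => (c ω, F.W ω)) +
      Pool.KVA.MI p F.W L c) ≤ (K + 1) * (CH p (Sc F i₁ a e K G X) (bxs F i₁ a e K G 0) +
        C₁ + δ) := mul_le_mul_of_nonneg_left (by linarith only [s2, s3]) (by positivity)
    have t3 : ((K : ℝ) + 1) * (C₁ + δ) ≤ (K + 1) * (C₁ + 1) * (1 + δ) := by
      have t4 : C₁ + δ ≤ (C₁ + 1) * (1 + δ) := by nlinarith only [hC₁, hδ]
      have := mul_le_mul_of_nonneg_left t4 (by positivity : (0 : ℝ) ≤ K + 1)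
      linarith only [this]
    linarith only [t2, t3]
  have t5 : N * (c0 + (K + 4) * ((K + 1) ^ 2 * (2 * ((K + 1) * δ + Real.log 6) + Real.log 2))) ≤
      N * (c0 + (K + 4) * ((K + 1) ^ 2 * (2 * ((K + 1) + Real.log 6) + Real.log 2))) *
        (1 + δ) := by
    rw [mul_assoc]
    refine mul_le_mul_of_nonneg_left ?_ hN0
    have t6 : 2 * ((K + 1) * δ + Real.log 6) + Real.log 2 ≤
        (2 * (((K : ℝ) + 1) + Real.log 6) + Real.log 2) * (1 + δ) := by
      nlinarith only [hl6, hδ, hl2, mul_nonneg hl6 hδ, mul_nonneg hl2.le hδ]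
    have t7 : (K + 4) * (((K : ℝ) + 1) ^ 2 * (2 * ((K + 1) * δ + Real.log 6) + Real.log 2)) ≤
        (K + 4) * ((K + 1) ^ 2 * ((2 * ((K + 1) + Real.log 6) + Real.log 2) * (1 + δ))) :=
      mul_le_mul_of_nonneg_left (mul_le_mul_of_nonneg_left t6 (by positivity)) (by positivity)
    have t8 := mul_nonneg hc00 hδ
    linarith only [t7, t8]
  linarith only [t1, t5]

end Pool.PTH
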